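import Mathlib
import Pool.Agent.MWGI.StmtsC

set_option autoImplicit false

namespace Pool.Agent.MWGI.H95

open Pool.Agent.Helper14_MV Pool.Agent.Helper2_MV Pool.Agent.MVO Pool.Agent.MWL Pool.Agent.MWS
  Pool.Agent.MWH

theorem sq2_two {a b : ℕ} {L M : List ℕ} (ha : a ∈ L) (hb : b ∈ M) :
    [a, b].Sublist (L ++ M) := by
  have h1 : [a].Sublist L := List.singleton_sublist.mpr ha
  have h2 : [b].Sublist M := List.singleton_sublist.mpr hb
  exact h1.append h2

theorem sq2_suf {C : ℕ → List ℕ} {i p q a b : ℕ} (ha : a ∈ C p) (hb : b ∈ C q) (hpq : p < q)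
    (hip : i < p) : ∀ r : ℕ, q ≤ i + r → [a, b].Sublist (suf C i r) := by
  intro r
  induction r with
  | zero => intro h; omega
  | succ r ih =>
    intro h
    simp only [suf]
    by_cases hq : q = i + r + 1
    · subst hq
      exact sq2_two (mem_suf.mpr (Or.inr ⟨p, hip, by omega, ha⟩)) (List.mem_cons_of_mem _ hb)
    · exact (ih (by omega)).trans (List.sublist_append_left _ _)

theorem sq2 : Sq2Stmt := by
  intro k i p q a b C hik ha hb hpq
  refine ⟨?_, ?_⟩
  · intro hip hqk
    exact sq2_suf ha hb hpq hip (k - i) (by omega)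
  · intro hqi
    obtain ⟨R, hR⟩ := pre_split (B := C) hqi
    rw [hR, List.append_assoc]
    exact sq2_two (mem_pre.mpr (Or.inr ⟨p, hpq, ha⟩)) (List.mem_append_left _ hb)

end Pool.Agent.MWGI.H95
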